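import Pool.Agent.H482R3.EA.Defs2

set_option autoImplicit false

/-! Project EA: the statements (helper482). Every task is `theorem ... : S_XXX`,
possibly from hypotheses `(h : S_YYY)`. -/

namespace Pool.Agent.H482R3.EA

open NF

/-! ### Part I -/

def S_UNI : Prop := ∀ (S : Sys) (s : St S) (l : S.Ln) (q q' : S.P), ¬ InD S l s →
  S.I q l → Near S q s → S.I q' l → Near S q' s → q = q'

def S_REP : Prop := ∀ (S : Sys) (l : S.Ln) (q : S.P), S.I q l → ∀ y : S.L l,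
  (y = S.x l q ^ cf S l q y * rep S l q y) ∧
  (∀ a : ℤ, rep S l q (S.x l q ^ a * y) = rep S l q y) ∧
  (∀ a : ℤ, cf S l q (S.x l q ^ a * y) = a + cf S l q y) ∧
  (rep S l q y = 1 ↔ ∃ a : ℤ, y = S.x l q ^ a) ∧
  rep S l q (rep S l q y) = rep S l q y

def S_UPN : Prop := ∀ (S : Sys) (h : NF S) (l : S.Ln) (y : S.L l),
  (∀ q, S.I q l → ¬ Near S q (st h)) → up h l y = att h l y

def S_UPM : Prop := ∀ (S : Sys) (h : NF S) (l : S.Ln) (y : S.L l) (q : S.P) (m : S.Ln),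
  ¬ InD S l (st h) → S.I q l → Near S q (st h) → InD S m (st h) → S.I q m →
  up h l y = attM (fun a => act h m (S.x m q ^ a)) q l y

def S_ACTN : Prop := ∀ (S : Sys) (h : NF S) (l : S.Ln) (y : S.L l),
  ¬ InD S l (st h) → act h l y = up h l y

/-- Lemma S -/
def S_LS : Prop := ∀ (S : Sys) (h : NF S) (m : S.Ln) (q : S.P) (a : ℤ), Valid h →
  InD S m (st h) → S.I q m → st h ≠ .pt q →
  InD S m (st (act h m (S.x m q ^ a))) ∧ st (act h m (S.x m q ^ a)) ≠ .pt q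

def S_P4 : Prop := ∀ (S : Sys) (h : NF S) (l : S.Ln) (y y' : S.L l), Valid h →
  ¬ InD S l (st h) → act (up h l y) l y' = up h l (y * y')

def S_A1 : Prop := ∀ (S : Sys) (h : NF S) (l : S.Ln) (y y' : S.L l), Valid h →
  act (act h l y) l y' = act h l (y * y')

def S_A0 : Prop := ∀ (S : Sys) (h : NF S) (l : S.Ln), Valid h → act h l 1 = h

def S_P1 : Prop := ∀ (S : Sys) (h : NF S) (l : S.Ln) (y : S.L l), Valid h → Valid (act h l y)

/-- (a): a point not near the state -/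
def S_PTN : Prop := ∀ (S : Sys) (h : NF S) (l : S.Ln) (p : S.P) (n : ℤ), Valid h →
  S.I p l → ¬ Near S p (st h) → act h l (S.x l p ^ n) = if n = 0 then h else .pt h p n

def S_A2 : Prop := ∀ (S : Sys) (h : NF S) (l m : S.Ln) (p : S.P) (n : ℤ), Valid h →
  S.I p l → S.I p m → act h l (S.x l p ^ n) = act h m (S.x m p ^ n)

/-- valuation, for all raw normal forms -/
def S_VAL : Prop := ∀ (S : Sys) (K : Type) (_ : Group K) (φ : (l : S.Ln) → S.L l →* K)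
  (X : S.P → K), (∀ l p, S.I p l → φ l (S.x l p) = X p) →
  ∃ v : NF S → K, v .one = 1 ∧ (∀ h l (y : S.L l), v (act h l y) = v h * φ l y)

/-- the two rules for the state after a line syllable -/
def S_STL : Prop := ∀ (S : Sys) (h : NF S) (l : S.Ln) (y : S.L l), Valid h → ¬ InD S l (st h) →
  (((∀ q, S.I q l → ¬ Near S q (st h)) → (∀ (r : S.P) (a : ℤ), S.I r l → y ≠ S.x l r ^ a) →
    st (act h l y) = .ln l) ∧
  (∀ q, S.I q l → Near S q (st h) →
    (∀ (r : S.P) (a b : ℤ), S.I r l → y ≠ S.x l q ^ a * S.x l r ^ b) →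
    st (act h l y) = .ln l))

/-- every valid normal form is obtained by admissible prolongations -/
def S_GEN : Prop := ∀ (S : Sys) (C : NF S → Prop), C .one →
  (∀ h (l : S.Ln) (y : S.L l), Valid h → C h → Adm S (st h) l y → C (act h l y)) →
  ∀ h, Valid h → C h

def S_NFT : Prop := ∀ S : Sys, Nonempty (Act S)

/-! ### Part II: the elements `x_i` of the free group -/

def S_XX : Prop := ∀ k : ℕ, 0 < k →
  (∀ i : ℤ, xx k (i + k) = (PP k)⁻¹ * xx k i * PP k) ∧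
  (∀ i : ℤ, (List.ofFn fun r : Fin k => xx k (i + (r : ℕ))).prod = PP k) ∧
  (∀ r : Fin k, xx k ((r : ℕ) : ℤ) = FreeGroup.of r)

def S_XH : Prop := ∀ (G : Type) (_ : Group G) (v w g : G) (k : ℕ), 0 < k →
  (v * w) ^ k = (w * v) ^ k → ∀ i : ℤ,
  FreeGroup.lift (fun r : Fin k => g * w ^ (r : ℕ) * v * w ^ (-((r : ℕ) : ℤ)) * g⁻¹) (xx k i) =
    g * w ^ i * v * w ^ (-i) * g⁻¹

def S_XS : Prop := ∀ (k : ℕ) (d : ℤ), 0 < k →
  ∃ σ : FreeGroup (Fin k) ≃* FreeGroup (Fin k), ∀ i, σ (xx k i) = xx k (i + d)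

/-- a homomorphism detecting positions inside one residue class: `Perm (ℤ × ℤ)` -/
def S_XT : Prop := ∀ (k : ℕ) (r : ℤ), 2 ≤ k → 0 ≤ r → r < k →
  ∃ θ : FreeGroup (Fin k) →* Equiv.Perm (ℤ × ℤ), ∀ (j a : ℤ) (p : ℤ × ℤ),
    θ (xx k (r + k * j) ^ a) p = (p.1, p.2 + if p.1 = j then a else 0)

def S_X3 : Prop := ∀ k : ℕ, 2 ≤ k →
  (∀ i a : ℤ, xx k i ^ a = 1 → a = 0) ∧
  (∀ i j a b : ℤ, i ≠ j → xx k i ^ a * xx k j ^ b = 1 → a = 0 ∧ b = 0) ∧
  (∀ i j l a b d : ℤ, i ≠ j → j ≠ l → i ≠ l → xx k i ^ a * xx k j ^ b * xx k l ^ d = 1 →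
    a = 0 ∧ b = 0 ∧ d = 0)

/-! ### Part III: even Artin groups -/

/-- the universal property, in terms of words -/
def S_LIFT : Prop := ∀ (S G : Type) (_ : Group G) (c : S → S → ℕ) (f : S → G),
  (∀ s t, s ≠ t → c s t ≠ 0 → (f s * f t) ^ (c s t) = (f t * f s) ^ (c s t)) →
  ∃ φ : EA c →* G, (∀ s, φ (gen c s) = f s) ∧ ∀ u : W S, φ (ev (gen c) u) = ev f u

def S_EX : Prop := ∀ (S : Type) (_ : DecidableEq S) (c : S → S → ℕ) (s : S),
  (∀ u u' : W S, ev (gen c) u = ev (gen c) u' → expo s u = expo s u') ∧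
  (∀ u : W S, ev (gen c) (fil s u) = gen c s ^ expo s u) ∧
  (∀ u : W S, expo s (fil s u) = expo s u) ∧
  (∀ u u' : W S, expo s (u ++ u') = expo s u + expo s u') ∧
  (∀ u : W S, expo s (inv u) = - expo s u)

def S_EV : Prop := ∀ (S G : Type) (_ : Group G) (f : S → G),
  (∀ u u' : W S, ev f (u ++ u') = ev f u * ev f u') ∧ (∀ u : W S, ev f (inv u) = (ev f u)⁻¹) ∧
  (∀ (s : S) (n : ℕ), ev f (List.replicate n (s, true)) = f s ^ n ∧
    ev f (List.replicate n (s, false)) = (f s)⁻¹ ^ n)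

def S_SURJ : Prop := ∀ (S : Type) (c : S → S → ℕ) (g : EA c), ∃ u : W S, ev (gen c) u = g

def S_RET : Prop := ∀ (V Wt : Type) (c : V ⊕ Wt → V ⊕ Wt → ℕ),
  (∀ u : W Wt, Triv (cW c) u ↔ Triv c (iW u)) ∧ (∀ u : W V, Triv (cV c) u ↔ Triv c (iV u))

/-- `exg` is the exponent sum -/
def S_EXG : Prop := ∀ (V Wt : Type) (_ : DecidableEq Wt) (c : V ⊕ Wt → V ⊕ Wt → ℕ) (w : Wt),
  (∀ u : W Wt, exg c w (ev (gen (cW c)) u) = expo w u) ∧
  (∀ g g' : EA (cW c), exg c w (g * g') = exg c w g + exg c w g') ∧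
  (∀ (w' : Wt) (n : ℤ), exg c w (gen (cW c) w' ^ n) = if w' = w then n else 0)

def S_GG : Prop := ∀ (V Wt : Type) (c : V ⊕ Wt → V ⊕ Wt → ℕ),
  (∀ (l m : LnEA c) (p q : PEA c), l ≠ m → IEA c p l → IEA c q l → IEA c p m →
    IEA c q m → p = q) ∧
  (∀ (l m k : LnEA c) (p q r : PEA c), l ≠ m → m ≠ k → k ≠ l →
    IEA c p l → IEA c p m → IEA c q m → IEA c q k → IEA c r k → IEA c r l → p = q)

def S_LX : Prop := ∀ (V Wt : Type) (_ : DecidableEq V) (_ : DecidableEq Wt)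
  (c : V ⊕ Wt → V ⊕ Wt → ℕ), Cross c →
  (∀ (l : LnEA c) (p : PEA c) (n : ℤ), IEA c p l → xEA c l p ^ n = 1 → n = 0) ∧
  (∀ (l : LnEA c) (p q : PEA c) (a b : ℤ), IEA c p l → IEA c q l → p ≠ q →
    xEA c l p ^ a * xEA c l q ^ b = 1 → a = 0 ∧ b = 0) ∧
  (∀ (l : LnEA c) (p q r : PEA c) (a b d : ℤ), IEA c p l → IEA c q l → IEA c r l →
    p ≠ q → q ≠ r → p ≠ r →
    xEA c l p ^ a * xEA c l q ^ b * xEA c l r ^ d = 1 → a = 0 ∧ b = 0 ∧ d = 0)

def S_SYS : Prop := ∀ (V Wt : Type) (_ : DecidableEq V) (_ : DecidableEq Wt) (_ : Nonempty V)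
  (c : V ⊕ Wt → V ⊕ Wt → ℕ), Cross c → SysOK c

section act
variable {V Wt : Type} [DecidableEq V] [DecidableEq Wt] (c : V ⊕ Wt → V ⊕ Wt → ℕ)
  (h : SysOK c) (A : Act (sysEA c h))

/-- one letter acting from the right on `Ω × A_W` -/
noncomputable def stepA (x : A.Ω × EA (cW c)) (a : (V ⊕ Wt) × Bool) : A.Ω × EA (cW c) :=
  match a with
  | (.inl v, b) => (A.act x.1 (Sum.inl x.2 : LnEA c)
      (if b then gen (cV c) v else (gen (cV c) v)⁻¹ : EA (cV c)), x.2)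
  | (.inr w, b) => (x.1, x.2 * if b then gen (cW c) w else (gen (cW c) w)⁻¹)

noncomputable def runA (u : W (V ⊕ Wt)) (x : A.Ω × EA (cW c)) : A.Ω × EA (cW c) :=
  u.foldl (stepA c h A) x

/-- value of a word over `W` in `A_W` -/
def gEl (g : W Wt) : EA (cW c) := ev (gen (cW c)) g

open Classical in
/-- state of a syllable -/
noncomputable def stO : Option (Syl V Wt) → St (sysEA c h)
  | none => .none
  | some (.inl (g, v, _, _)) => .pt ((gEl c g, v) : PEA c)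
  | some (.inr (.inl (g, _))) => .ln (Sum.inl (gEl c g) : LnEA c)
  | some (.inr (.inr (g, v, w, _))) =>
      if hc : c (.inl v) (.inr w) ≠ 0 then
        .ln (Sum.inr ⟨(⟨(v, w), hc⟩ : LIdx c), QuotientGroup.mk (gEl c g)⟩ : LnEA c)
      else .none

open Classical in
/-- line and group element of a syllable -/
noncomputable def lyO : Syl V Wt → Σ l : LnEA c, LEA c l
  | .inl (g, v, b, n) => ⟨Sum.inl (gEl c g),
      ((if b then gen (cV c) v else (gen (cV c) v)⁻¹) ^ n : EA (cV c))⟩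
  | .inr (.inl (g, y)) => ⟨Sum.inl (gEl c g), (ev (gen (cV c)) y : EA (cV c))⟩
  | .inr (.inr (g, v, w, y)) =>
      if hc : c (.inl v) (.inr w) ≠ 0 then
        ⟨Sum.inr ⟨(⟨(v, w), hc⟩ : LIdx c), QuotientGroup.mk (gEl c g)⟩,
          (ev (fun r : ℕ => xx (c (.inl v) (.inr w)) (((r % c (.inl v) (.inr w) : ℕ) : ℤ) +
            exg c w (((QuotientGroup.mk (gEl c g) :
              EA (cW c) ⧸ Subgroup.zpowers (gen (cW c) w)).out)⁻¹ * gEl c g))) y :
            FreeGroup (Fin (c (.inl v) (.inr w))))⟩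
      else ⟨Sum.inl 1, (1 : EA (cV c))⟩

/-- a line syllable has a finite label -/
def okS : Syl V Wt → Prop
  | .inl _ => True
  | .inr (.inl _) => True
  | .inr (.inr (_, v, w, _)) => c (.inl v) (.inr w) ≠ 0

def okO : Option (Syl V Wt) → Prop
  | none => True
  | some a => okS c a

end act

/-- trivial words act trivially -/
def S_ACTA : Prop := ∀ (V Wt : Type) (_ : DecidableEq V) (_ : DecidableEq Wt)
  (c : V ⊕ Wt → V ⊕ Wt → ℕ) (_ : Symm c) (_ : Cross c) (h : SysOK c) (A : Act (sysEA c h))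
  (u : W (V ⊕ Wt)), Triv c u → ∀ x, runA c h A u x = x

def S_VALA : Prop := ∀ (V Wt : Type) (_ : DecidableEq V) (_ : DecidableEq Wt)
  (c : V ⊕ Wt → V ⊕ Wt → ℕ) (_ : Symm c) (_ : Cross c) (h : SysOK c) (A : Act (sysEA c h)),
  ∃ v : A.Ω × EA (cW c) → EA c, v (A.one, 1) = 1 ∧
    ∀ (u : W (V ⊕ Wt)) x, v (runA c h A u x) = v x * ev (gen c) u

/-- dictionary between words and the system -/
def S_DIC : Prop := ∀ (V Wt : Type) (_ : DecidableEq V) (_ : DecidableEq Wt)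
  (c : V ⊕ Wt → V ⊕ Wt → ℕ) (h : SysOK c) (s : Option (Syl V Wt)) (g : W Wt) (v : V),
  okO c s →
  (NearW c g v s ↔ Near (sysEA c h) ((gEl c g, v) : PEA c) (stO c h s)) ∧
  (InDB c g s ↔ InD (sysEA c h) (Sum.inl (gEl c g) : LnEA c) (stO c h s)) ∧
  (∀ (w : Wt) (hc : c (.inl v) (.inr w) ≠ 0),
    (InDL c g v w s ↔ InD (sysEA c h)
      (Sum.inr ⟨(⟨(v, w), hc⟩ : LIdx c), QuotientGroup.mk (gEl c g)⟩ : LnEA c) (stO c h s)))

def S_DICM : Prop := ∀ (V Wt : Type) (_ : DecidableEq V) (_ : DecidableEq Wt)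
  (c : V ⊕ Wt → V ⊕ Wt → ℕ) (h : SysOK c) (s : Option (Syl V Wt)) (g : W Wt) (v : V) (w : Wt)
  (hc : c (.inl v) (.inr w) ≠ 0), okO c s → ¬ InDL c g v w s →
  (MeetL c g v w s ↔ ∃ q : PEA c,
    IEA c q (Sum.inr ⟨(⟨(v, w), hc⟩ : LIdx c), QuotientGroup.mk (gEl c g)⟩ : LnEA c) ∧
    Near (sysEA c h) q (stO c h s)) ∧
  (MeetL c g v w s → Near (sysEA c h)
    ((gEl c g * gen (cW c) w ^ expo w (inv g ++ gOf s), v) : PEA c) (stO c h s))

/-- an admissible syllable gives the right state -/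
def S_SEM1 : Prop := ∀ (V Wt : Type) (_ : DecidableEq V) (_ : DecidableEq Wt)
  (c : V ⊕ Wt → V ⊕ Wt → ℕ) (_ : Cross c) (h : SysOK c) (A : Act (sysEA c h))
  (s : Option (Syl V Wt)) (a : Syl V Wt) (ω : A.Ω), okO c s → AdmW c s a →
  A.st ω = stO c h s →
  okS c a ∧ A.st (A.act ω (lyO c a).1 (lyO c a).2) = stO c h (some a)

/-- every admissible prolongation comes from an admissible syllable -/
def S_SEM2 : Prop := ∀ (V Wt : Type) (_ : DecidableEq V) (_ : DecidableEq Wt)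
  (c : V ⊕ Wt → V ⊕ Wt → ℕ) (_ : Cross c) (h : SysOK c)
  (s : Option (Syl V Wt)) (l : LnEA c) (y : LEA c l), okO c s →
  Adm (sysEA c h) (stO c h s) l y → ∃ a : Syl V Wt, AdmW c s a ∧
    ∀ (A : Act (sysEA c h)) (ω : A.Ω), A.act ω l y = A.act ω (lyO c a).1 (lyO c a).2

/-- the word of a syllable acts like the syllable -/
def S_RUN : Prop := ∀ (V Wt : Type) (_ : DecidableEq V) (_ : DecidableEq Wt)
  (c : V ⊕ Wt → V ⊕ Wt → ℕ) (_ : Symm c) (_ : Cross c) (h : SysOK c) (A : Act (sysEA c h))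
  (a : Syl V Wt) (ω : A.Ω), okS c a →
  runA c h A (valS c a) (ω, 1) = (A.act ω (lyO c a).1 (lyO c a).2, 1)

def S_CERT : Prop := ∀ (V Wt : Type) (_ : DecidableEq V) (_ : DecidableEq Wt) (_ : Nonempty V)
  (c : V ⊕ Wt → V ⊕ Wt → ℕ) (_ : Symm c) (_ : Cross c) (u : W (V ⊕ Wt)),
  ¬ Triv c u ↔ ∃ (code : List (Syl V Wt)) (g : W Wt), VC c none code ∧
    Triv c (inv u ++ code.flatMap (valS c) ++ iW g) ∧ (code ≠ [] ∨ ¬ Triv (cW c) g)

/-! ### Part V: computability -/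

def S_C1 : Prop := ∀ k : ℕ, 2 ≤ k → ComputablePred (fun y : W ℕ => cond1 k y)

def S_C2 : Prop := ∀ k : ℕ, 2 ≤ k →
  ComputablePred (fun p : (ℕ × ℕ) × W ℕ => cond2 k ((p.1.1 : ℤ) - (p.1.2 : ℤ)) p.2)

/-- bounds for the unknown exponents -/
def S_BD : Prop := ∀ k : ℕ, 2 ≤ k → ∃ B : ℕ → ℕ, Computable B ∧
  (∀ (y : W ℕ) (s a : ℤ), evF k y = xx k s ^ a →
    ∃ s' a' : ℤ, |s'| ≤ B y.length ∧ |a'| ≤ B y.length ∧ evF k y = xx k s' ^ a') ∧
  (∀ (y : W ℕ) (j s a b : ℤ), evF k y = xx k j ^ a * xx k s ^ b →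
    ∃ s' a' b' : ℤ, |s'| ≤ B (y.length + j.natAbs) ∧ |a'| ≤ B (y.length + j.natAbs) ∧
      |b'| ≤ B (y.length + j.natAbs) ∧ evF k y = xx k j ^ a' * xx k s' ^ b')

/-- the word problem of a free group is computable -/
def S_FW : Prop := ∀ (α : Type) (_ : Primcodable α) (_ : DecidableEq α),
  ComputablePred (fun u : W α => ev (FreeGroup.of : α → FreeGroup α) u = 1)

/-- the same for the words over `ℕ` modulo `k` -/
def S_FR : Prop := ∀ k : ℕ, 0 < k → ComputablePred (fun y : W ℕ => evF k y = 1)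

def S_BAS : Prop := ∀ n : ℕ,
  (Computable (fun u : W (Fin n) => inv u)) ∧
  (Computable (fun p : Fin n × W (Fin n) => fil p.1 p.2)) ∧
  (Computable (fun p : Fin n × W (Fin n) =>
    (p.2.count (p.1, true), p.2.count (p.1, false))))

def S_ADMC : Prop := ∀ (a b : ℕ) (c : Fin a ⊕ Fin b → Fin a ⊕ Fin b → ℕ), Cross c →
  ComputablePred (Triv (cV c)) → ComputablePred (Triv (cW c)) →
  ComputablePred (fun p : Option (Syl (Fin a) (Fin b)) × Syl (Fin a) (Fin b) =>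
    AdmW c p.1 p.2)

def S_NEARC : Prop := ∀ (a b : ℕ) (c : Fin a ⊕ Fin b → Fin a ⊕ Fin b → ℕ),
  ComputablePred (Triv (cW c)) →
  ComputablePred (fun p : (W (Fin b) × Fin a) × Option (Syl (Fin a) (Fin b)) =>
    NearW c p.1.1 p.1.2 p.2)

def S_INDC : Prop := ∀ (a b : ℕ) (c : Fin a ⊕ Fin b → Fin a ⊕ Fin b → ℕ),
  ComputablePred (Triv (cW c)) →
  ComputablePred (fun p : W (Fin b) × Option (Syl (Fin a) (Fin b)) => InDB c p.1 p.2) ∧
  ComputablePred (fun p : (W (Fin b) × Fin a × Fin b) × Option (Syl (Fin a) (Fin b)) =>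
    InDL c p.1.1 p.1.2.1 p.1.2.2 p.2)

def S_MEETC : Prop := ∀ (a b : ℕ) (c : Fin a ⊕ Fin b → Fin a ⊕ Fin b → ℕ),
  ComputablePred (Triv (cW c)) →
  ComputablePred (fun p : (W (Fin b) × Fin a × Fin b) × Option (Syl (Fin a) (Fin b)) =>
    MeetL c p.1.1 p.1.2.1 p.1.2.2 p.2)

/-- closure properties of computable predicates -/
def S_CP : Prop := ∀ (α : Type) (_ : Primcodable α) (n : ℕ),
  (∀ p q : α → Prop, ComputablePred p → ComputablePred q → ComputablePred (fun x => p x ∧ q x)) ∧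
  (∀ p q : α → Prop, ComputablePred p → ComputablePred q → ComputablePred (fun x => p x ∨ q x)) ∧
  (∀ p : Fin n → α → Prop, (∀ i, ComputablePred (p i)) → ComputablePred (fun x => ∀ i, p i x)) ∧
  (∀ p : Fin n → α → Prop, (∀ i, ComputablePred (p i)) → ComputablePred (fun x => ∃ i, p i x))

/-- chains -/
def S_CH : Prop := ∀ (α : Type) (_ : Primcodable α) (R : Option α → α → Prop)
  (C : Option α → List α → Prop), (∀ s, C s []) → (∀ s a l, C s (a :: l) ↔ R s a ∧ C (some a) l) →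
  ComputablePred (fun p : Option α × α => R p.1 p.2) →
  ComputablePred (fun p : Option α × List α => C p.1 p.2)

/-- bounded search -/
def S_BS : Prop := ∀ (α : Type) (_ : Primcodable α) (p : α × ℕ → Prop) (B : α → ℕ),
  ComputablePred p → Computable B → ComputablePred (fun x => ∃ n, n ≤ B x ∧ p (x, n))

/-- the word problem is recursively enumerable -/
def S_RE : Prop := ∀ (a b : ℕ) (c : Fin a ⊕ Fin b → Fin a ⊕ Fin b → ℕ), REPred (Triv c)

/-- the value map of codes is computable -/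
def S_VCOMP : Prop := ∀ (a b : ℕ) (c : Fin a ⊕ Fin b → Fin a ⊕ Fin b → ℕ),
  Computable (fun p : W (Fin a ⊕ Fin b) × (List (Syl (Fin a) (Fin b)) × W (Fin b)) =>
    inv p.1 ++ p.2.1.flatMap (valS c) ++ iW p.2.2)

/-- projections of r.e. sets -/
def S_REX : Prop := ∀ (α β : Type) (_ : Primcodable α) (_ : Primcodable β) (p : α × β → Prop),
  REPred p → REPred (fun x => ∃ y, p (x, y))

/-- conjunction, disjunction and substitution for r.e. sets -/
def S_REC : Prop := ∀ (α β : Type) (_ : Primcodable α) (_ : Primcodable β),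
  (∀ p q : α → Prop, REPred p → REPred q → REPred (fun x => p x ∧ q x)) ∧
  (∀ (p : β → Prop) (f : α → β), REPred p → Computable f → REPred (fun x => p (f x)))

/-- the main step -/
def S_STEP : Prop := ∀ (a b : ℕ) (c : Fin a ⊕ Fin b → Fin a ⊕ Fin b → ℕ), 0 < a → Symm c →
  Cross c → ComputablePred (Triv (cV c)) → ComputablePred (Triv (cW c)) →
  ComputablePred (Triv c)

/-- direct products -/
def S_PROD : Prop := ∀ (a b : ℕ) (c : Fin a ⊕ Fin b → Fin a ⊕ Fin b → ℕ), Symm c →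
  (∀ v w, c (.inl v) (.inr w) = 1) →
  ComputablePred (Triv (cV c)) → ComputablePred (Triv (cW c)) → ComputablePred (Triv c)

/-- renumbering the generators -/
def S_IDX : Prop := ∀ (a b n : ℕ) (e : Fin a ⊕ Fin b ≃ Fin n) (c : Fin n → Fin n → ℕ),
  ComputablePred (Triv (fun s t : Fin a ⊕ Fin b => c (e s) (e t))) → ComputablePred (Triv c)

def S_BASE : Prop := ∀ (n : ℕ) (c : Fin n → Fin n → ℕ), n ≤ 1 → ComputablePred (Triv c)

/-- a relation without induced path on four vertices splits -/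
def P4free {n : ℕ} (r : Fin n → Fin n → Prop) : Prop :=
  ¬ ∃ x y z t : Fin n, x ≠ z ∧ x ≠ t ∧ y ≠ t ∧ r x y ∧ r y z ∧ r z t ∧ ¬ r x z ∧ ¬ r x t ∧ ¬ r y t

def S_COG : Prop := ∀ (n : ℕ) (r : Fin n → Fin n → Prop), 2 ≤ n → (∀ x y, r x y → r y x) →
  (∀ x, ¬ r x x) → P4free r → ∃ U : Set (Fin n), U.Nonempty ∧ Uᶜ.Nonempty ∧
    ((∀ x ∈ U, ∀ y ∈ Uᶜ, r x y) ∨ (∀ x ∈ U, ∀ y ∈ Uᶜ, ¬ r x y))

/-- splitting of the index set -/
def S_SPL : Prop := ∀ (n : ℕ) (U : Set (Fin n)), U.Nonempty → Uᶜ.Nonempty →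
  ∃ (a b : ℕ) (e : Fin a ⊕ Fin b ≃ Fin n), 0 < a ∧ 0 < b ∧ a < n ∧ b < n ∧
    (∀ i, e (.inl i) ∈ U) ∧ (∀ j, e (.inr j) ∈ Uᶜ)

def S_MAIN : Prop := ∀ (n : ℕ) (c : Fin n → Fin n → ℕ), Symm c →
  P4free (fun s t => s ≠ t ∧ c s t = 1) → ComputablePred (Triv c)

/-- the Artin group of a Coxeter matrix (`0` = infinity), as in the frozen statements -/
abbrev ArtinG (n : ℕ) (M : CoxeterMatrix (Fin n)) : Type :=
  PresentedGroup
    {r : FreeGroup (Fin n) | ∃ i j : Fin n, M i j ≠ 0 ∧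
      r = ((CoxeterSystem.alternatingWord i j (M i j)).map FreeGroup.of).prod *
        (((CoxeterSystem.alternatingWord j i (M i j)).map FreeGroup.of).prod)⁻¹}

/-- FINAL: even Artin groups whose commutation graph has no induced path on four vertices -/
def S_FINAL : Prop := ∀ (n : ℕ) (M : CoxeterMatrix (Fin n)),
  (∀ i j, i ≠ j → Even (M i j)) →
  (¬ ∃ x y z t : Fin n, M x y = 2 ∧ M y z = 2 ∧ M z t = 2 ∧
    M x z ≠ 2 ∧ M x t ≠ 2 ∧ M y t ≠ 2 ∧ x ≠ z ∧ x ≠ t ∧ y ≠ t) →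
  ComputablePred (fun u : List (Fin n × Bool) =>
    (u.map (fun a => if a.2 then (PresentedGroup.of a.1 : ArtinG n M)
      else (PresentedGroup.of a.1)⁻¹)).prod = 1)

end Pool.Agent.H482R3.EA
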