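import Mathlib

set_option autoImplicit false

/-! Project EA: word problem for even Artin groups (helper482). -/

namespace Pool.Agent.H482R3.EA

/-! ## Part I: systems of groups over a partial linear space without triangles -/

/-- A system: points, lines, incidence, a group `L l` for each line and an element `x l p` of
infinite order for every incident pair; no triangles of lines, no relations with at most three
syllables in the line groups. -/
structure Sys where
  P : Type
  Ln : Type
  I : P → Ln → Prop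
  L : Ln → Type
  grp : ∀ l, Group (L l)
  x : (l : Ln) → P → L l
  P0 : ∀ p, ∃ l, I p l
  Λ0 : ∀ l, ∃ p, I p l
  X0 : ∀ (l : Ln) (p : P) (n : ℤ), I p l → x l p ^ n = 1 → n = 0
  L1 : ∀ (l : Ln) (p q : P) (a b : ℤ), I p l → I q l → p ≠ q →
    x l p ^ a * x l q ^ b = 1 → a = 0 ∧ b = 0
  L2 : ∀ (l : Ln) (p q r : P) (a b c : ℤ), I p l → I q l → I r l → p ≠ q → q ≠ r → p ≠ r →
    x l p ^ a * x l q ^ b * x l r ^ c = 1 → a = 0 ∧ b = 0 ∧ c = 0
  G1 : ∀ (l m : Ln) (p q : P), l ≠ m → I p l → I q l → I p m → I q m → p = q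
  G2 : ∀ (l m k : Ln) (p q r : P), l ≠ m → m ≠ k → k ≠ l →
    I p l → I p m → I q m → I q k → I r k → I r l → p = q

attribute [instance] Sys.grp

/-- states -/
inductive St (S : Sys) : Type
  | none : St S
  | ln : S.Ln → St S
  | pt : S.P → St S

/-- `p` lies on one of the lines of the state -/
def Near (S : Sys) (p : S.P) : St S → Prop
  | .none => False
  | .ln m => S.I p m
  | .pt r => ∃ m, S.I r m ∧ S.I p m

/-- the line `l` belongs to the state -/
def InD (S : Sys) (l : S.Ln) : St S → Prop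
  | .none => False
  | .ln m => l = m
  | .pt r => S.I r l

/-- the admissible ways to prolong a normal form of state `s` by `y ∈ L l` -/
def Adm (S : Sys) (s : St S) (l : S.Ln) (y : S.L l) : Prop :=
  (∃ (p : S.P) (n : ℤ), S.I p l ∧ n ≠ 0 ∧ ¬ Near S p s ∧ y = S.x l p ^ n) ∨
  (¬ InD S l s ∧ (∀ q, S.I q l → ¬ Near S q s) ∧
    ∀ (r : S.P) (a : ℤ), S.I r l → y ≠ S.x l r ^ a) ∨
  (¬ InD S l s ∧ ∃ q, S.I q l ∧ Near S q s ∧
    ∀ (r : S.P) (a b : ℤ), S.I r l → y ≠ S.x l q ^ a * S.x l r ^ b)

/-- Conclusion of Part I: the set of normal forms with the right actions of the line groups. -/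
structure Act (S : Sys) where
  Ω : Type
  one : Ω
  act : Ω → (l : S.Ln) → S.L l → Ω
  st : Ω → St S
  act_one : ∀ ω l, act ω l 1 = ω
  act_mul : ∀ ω l (y y' : S.L l), act (act ω l y) l y' = act ω l (y * y')
  act_pt : ∀ ω (l m : S.Ln) (p : S.P) (n : ℤ), S.I p l → S.I p m →
    act ω l (S.x l p ^ n) = act ω m (S.x m p ^ n)
  st_one : st one = .none
  st_eq_none : ∀ ω, st ω = .none → ω = one
  st_pt : ∀ ω (l : S.Ln) (p : S.P) (n : ℤ), S.I p l → n ≠ 0 → ¬ Near S p (st ω) →
    st (act ω l (S.x l p ^ n)) = .pt p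
  st_ln : ∀ ω (l : S.Ln) (y : S.L l), ¬ InD S l (st ω) → (∀ q, S.I q l → ¬ Near S q (st ω)) →
    (∀ (r : S.P) (a : ℤ), S.I r l → y ≠ S.x l r ^ a) → st (act ω l y) = .ln l
  st_ln' : ∀ ω (l : S.Ln) (y : S.L l) (q : S.P), ¬ InD S l (st ω) → S.I q l → Near S q (st ω) →
    (∀ (r : S.P) (a b : ℤ), S.I r l → y ≠ S.x l q ^ a * S.x l r ^ b) → st (act ω l y) = .ln l
  gen : ∀ C : Ω → Prop, C one →
    (∀ ω (l : S.Ln) (y : S.L l), C ω → Adm S (st ω) l y → C (act ω l y)) → ∀ ω, C ω
  val : ∀ (K : Type) [Group K] (φ : (l : S.Ln) → S.L l →* K) (X : S.P → K),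
    (∀ l p, S.I p l → φ l (S.x l p) = X p) →
    ∃ v : Ω → K, v one = 1 ∧ ∀ ω l (y : S.L l), v (act ω l y) = v ω * φ l y

/-! ### raw normal forms and the action -/

open Classical in
/-- raw normal forms -/
inductive NF (S : Sys) : Type
  | one : NF S
  | pt : NF S → S.P → ℤ → NF S
  | ln : NF S → (l : S.Ln) → S.L l → NF S

namespace NF

variable {S : Sys}

def st : NF S → St S
  | .one => .none
  | .pt _ p _ => .pt p
  | .ln _ l _ => .ln l

/-- the right coset `⟨x_q⟩ y` -/
def cosetSetoid (S : Sys) (l : S.Ln) (q : S.P) : Setoid (S.L l) where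
  r y y' := ∃ a : ℤ, y' = S.x l q ^ a * y
  iseqv :=
    { refl := fun y => ⟨0, by simp⟩
      symm := fun {y y'} h => by
        obtain ⟨a, rfl⟩ := h
        exact ⟨-a, by simp⟩
      trans := fun {y y' y''} h h' => by
        obtain ⟨a, rfl⟩ := h
        obtain ⟨b, rfl⟩ := h'
        exact ⟨b + a, by rw [zpow_add, mul_assoc]⟩ }

open Classical in
/-- canonical representative of `⟨x_q⟩ y`, equal to `1` for the trivial coset -/
noncomputable def rep (S : Sys) (l : S.Ln) (q : S.P) (y : S.L l) : S.L l :=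
  if ∃ a : ℤ, y = S.x l q ^ a then 1
  else (Quotient.mk (cosetSetoid S l q) y).out

/-- `y = x_q ^ (cf y) * rep y` -/
lemma exists_cf (S : Sys) (l : S.Ln) (q : S.P) (y : S.L l) :
    ∃ a : ℤ, y = S.x l q ^ a * rep S l q y := by
  unfold rep
  split_ifs with h
  · obtain ⟨a, ha⟩ := h
    exact ⟨a, by rw [ha, mul_one]⟩
  · have : (cosetSetoid S l q).r (Quotient.mk (cosetSetoid S l q) y).out y :=
      Quotient.mk_out (s := cosetSetoid S l q) y
    obtain ⟨a, ha⟩ := this
    exact ⟨a, ha⟩

noncomputable def cf (S : Sys) (l : S.Ln) (q : S.P) (y : S.L l) : ℤ := (exists_cf S l q y).choose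

open Classical in
/-- prolongation when `l` does not meet the state -/
noncomputable def att (h : NF S) (l : S.Ln) (y : S.L l) : NF S :=
  if y = 1 then h
  else if H : ∃ (s : S.P) (c : ℤ), S.I s l ∧ y = S.x l s ^ c then .pt h H.choose H.choose_spec.choose
  else .ln h l y

open Classical in
/-- prolongation when `l` meets the state at `q`; `f a = h · x_q ^ a` -/
noncomputable def attM (f : ℤ → NF S) (q : S.P) (l : S.Ln) (y : S.L l) : NF S :=
  let t := rep S l q y
  let a := cf S l q y
  if t = 1 then f a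
  else if H : ∃ (s : S.P) (b c : ℤ), S.I s l ∧ s ≠ q ∧ t = S.x l q ^ b * S.x l s ^ c then
    .pt (f (a + H.choose_spec.choose)) H.choose H.choose_spec.choose_spec.choose
  else .ln (f a) l t

open Classical in
/-- `up h l y = h · y` for `l ∉ D(h)` -/
noncomputable def up : NF S → (l : S.Ln) → S.L l → NF S
  | .one => fun l y => att .one l y
  | .pt h p n => fun l y =>
      if H : ∃ (q : S.P) (m : S.Ln), S.I q l ∧ S.I p m ∧ S.I q m then
        attM (fun a => up h H.choose_spec.choose
          (S.x H.choose_spec.choose p ^ n * S.x H.choose_spec.choose H.choose ^ a)) H.choose l y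
      else att (.pt h p n) l y
  | .ln h m t => fun l y =>
      if H : ∃ q : S.P, S.I q l ∧ S.I q m then
        attM (fun a => up h m (t * S.x m H.choose ^ a)) H.choose l y
      else att (.ln h m t) l y

open Classical in
/-- the action of `y ∈ L l` on a raw normal form -/
noncomputable def act : NF S → (l : S.Ln) → S.L l → NF S
  | .one => fun l y => up .one l y
  | .pt h p n => fun l y => if S.I p l then up h l (S.x l p ^ n * y) else up (.pt h p n) l y
  | .ln h m t => fun l y =>
      if e : m = l then up h l ((e ▸ t) * y) else up (.ln h m t) l y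

/-- validity of raw normal forms -/
def Valid : NF S → Prop
  | .one => True
  | .pt h p n => Valid h ∧ n ≠ 0 ∧ ¬ Near S p (st h)
  | .ln h l y => Valid h ∧ ¬ InD S l (st h) ∧
      (∀ q, S.I q l → Near S q (st h) → rep S l q y = y ∧
        ∀ (r : S.P) (a b : ℤ), S.I r l → y ≠ S.x l q ^ a * S.x l r ^ b) ∧
      ((∀ q, S.I q l → ¬ Near S q (st h)) →
        ∀ (r : S.P) (a : ℤ), S.I r l → y ≠ S.x l r ^ a)

end NF

end Pool.Agent.H482R3.EA
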