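import Pool.Agent.H482R3.EA.Defs

set_option autoImplicit false

/-! Project EA, part 2: even Artin groups, line groups, words and codes (helper482). -/

namespace Pool.Agent.H482R3.EA

/-! ## words -/

/-- words over an alphabet with signs (`true` = the letter, `false` = its inverse) -/
abbrev W (S : Type) := List (S × Bool)

/-- the inverse word -/
def inv {S : Type} (u : W S) : W S := (u.map (fun a => (a.1, !a.2))).reverse

/-- the value of a word -/
def ev {S G : Type} [Group G] (f : S → G) (u : W S) : G :=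
  (u.map (fun a => if a.2 then f a.1 else (f a.1)⁻¹)).prod

/-- the subword of all letters equal to `s` -/
def fil {S : Type} [DecidableEq S] (s : S) (u : W S) : W S := u.filter (fun a => decide (a.1 = s))

/-- exponent sum of the letter `s` -/
def expo {S : Type} [DecidableEq S] (s : S) (u : W S) : ℤ :=
  (u.count (s, true) : ℤ) - (u.count (s, false) : ℤ)

/-! ## even Artin groups -/

/-- `c s t` is half of the label of `s, t`; `0` stands for the label infinity -/
def rels {S : Type} (c : S → S → ℕ) : Set (FreeGroup S) :=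
  {r | ∃ s t : S, s ≠ t ∧ c s t ≠ 0 ∧
    r = (FreeGroup.of s * FreeGroup.of t) ^ (c s t) *
      ((FreeGroup.of t * FreeGroup.of s) ^ (c s t))⁻¹}

/-- the even Artin group with half-labels `c` -/
abbrev EA {S : Type} (c : S → S → ℕ) : Type := PresentedGroup (rels c)

/-- the generators -/
def gen {S : Type} (c : S → S → ℕ) (s : S) : EA c := PresentedGroup.of s

/-- the word `u` is trivial in `EA c` -/
def Triv {S : Type} (c : S → S → ℕ) (u : W S) : Prop := ev (gen c) u = 1

/-! ## line groups -/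

/-- the product of the generators of the free group of rank `k` -/
def PP (k : ℕ) : FreeGroup (Fin k) := (List.ofFn fun r : Fin k => FreeGroup.of r).prod

/-- the elements `x_i`, `i ∈ ℤ`: `x_r = of r` for `0 ≤ r < k` and `x_{i+k} = P⁻¹ x_i P` -/
def xx (k : ℕ) (i : ℤ) : FreeGroup (Fin k) :=
  if h : 0 < k then
    PP k ^ (-(i / (k : ℤ))) *
      FreeGroup.of (⟨(i % (k : ℤ)).toNat, by
        have h1 := Int.emod_nonneg i (b := (k : ℤ)) (by omega)
        have h2 := Int.emod_lt_of_pos i (b := (k : ℤ)) (by omega)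
        omega⟩ : Fin k) * PP k ^ (i / (k : ℤ))
  else 1

/-- value in the free group of rank `k` of a word over `ℕ`, the letter `r` standing for
`of (r mod k)` -/
def evF (k : ℕ) (y : W ℕ) : FreeGroup (Fin k) := ev (fun r => xx k ((r % k : ℕ) : ℤ)) y

def cond1 (k : ℕ) (y : W ℕ) : Prop := ∀ s a : ℤ, evF k y ≠ xx k s ^ a

def cond2 (k : ℕ) (j : ℤ) (y : W ℕ) : Prop := ∀ s a b : ℤ, evF k y ≠ xx k j ^ a * xx k s ^ b

/-! ## the system of `V ⊔ W` -/

section sys

variable {V Wt : Type} (c : V ⊕ Wt → V ⊕ Wt → ℕ)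

def cV : V → V → ℕ := fun a b => c (.inl a) (.inl b)
def cW : Wt → Wt → ℕ := fun a b => c (.inr a) (.inr b)

/-- pairs `v, w` with a finite label -/
def LIdx : Type := {vw : V × Wt // c (.inl vw.1) (.inr vw.2) ≠ 0}

/-- lines: `B_g` for `g ∈ A_W`, and `(v, w, g⟨w⟩)` -/
def LnEA : Type :=
  EA (cW c) ⊕ (Σ i : LIdx c, EA (cW c) ⧸ Subgroup.zpowers (gen (cW c) i.1.2))

def LEA : LnEA c → Type
  | .inl _ => EA (cV c)
  | .inr q => FreeGroup (Fin (c (.inl q.1.1.1) (.inr q.1.1.2)))

instance instGrpLEA : ∀ l : LnEA c, Group (LEA c l)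
  | .inl _ => inferInstanceAs (Group (EA (cV c)))
  | .inr q => inferInstanceAs (Group (FreeGroup (Fin (c (.inl q.1.1.1) (.inr q.1.1.2)))))

/-- points `(g, v)` -/
abbrev PEA : Type := EA (cW c) × V

def IEA : PEA c → LnEA c → Prop
  | p, .inl g => p.1 = g
  | p, .inr q => p.2 = q.1.1.1 ∧ (QuotientGroup.mk p.1 : EA (cW c) ⧸ _) = q.2

variable [DecidableEq Wt]

/-- exponent sum of `w` as a function on `A_W` (junk if not well defined; it is) -/
noncomputable def exg (w : Wt) (g : EA (cW c)) : ℤ :=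
  expo w ((Quot.exists_rep g).choose.toWord)

noncomputable def xEA : (l : LnEA c) → PEA c → LEA c l
  | .inl _ => fun p => gen (cV c) p.2
  | .inr q => fun p => xx _ (exg c q.1.1.2 ((q.2.out : EA (cW c))⁻¹ * p.1))

/-- all axioms of a system for these data -/
structure SysOK : Prop where
  P0 : ∀ p : PEA c, ∃ l, IEA c p l
  Λ0 : ∀ l : LnEA c, ∃ p, IEA c p l
  X0 : ∀ (l : LnEA c) (p : PEA c) (n : ℤ), IEA c p l → xEA c l p ^ n = 1 → n = 0
  L1 : ∀ (l : LnEA c) (p q : PEA c) (a b : ℤ), IEA c p l → IEA c q l → p ≠ q →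
    xEA c l p ^ a * xEA c l q ^ b = 1 → a = 0 ∧ b = 0
  L2 : ∀ (l : LnEA c) (p q r : PEA c) (a b d : ℤ), IEA c p l → IEA c q l → IEA c r l →
    p ≠ q → q ≠ r → p ≠ r →
    xEA c l p ^ a * xEA c l q ^ b * xEA c l r ^ d = 1 → a = 0 ∧ b = 0 ∧ d = 0
  G1 : ∀ (l m : LnEA c) (p q : PEA c), l ≠ m → IEA c p l → IEA c q l → IEA c p m →
    IEA c q m → p = q
  G2 : ∀ (l m k : LnEA c) (p q r : PEA c), l ≠ m → m ≠ k → k ≠ l →
    IEA c p l → IEA c p m → IEA c q m → IEA c q k → IEA c r k → IEA c r l → p = q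

/-- the system -/
noncomputable def sysEA (h : SysOK c) : Sys where
  P := PEA c
  Ln := LnEA c
  I := IEA c
  L := LEA c
  grp := instGrpLEA c
  x := xEA c
  P0 := h.P0
  Λ0 := h.Λ0
  X0 := h.X0
  L1 := h.L1
  L2 := h.L2
  G1 := h.G1
  G2 := h.G2

end sys

/-! ## codes -/

section codes

variable {V Wt : Type}

/-- syllables: `pt g v (sign, n)`, `bl g y`, `ll g v w y` -/
abbrev Syl (V Wt : Type) : Type :=
  (W Wt × V × Bool × ℕ) ⊕ ((W Wt × W V) ⊕ (W Wt × V × Wt × W ℕ))

variable (c : V ⊕ Wt → V ⊕ Wt → ℕ) [DecidableEq V] [DecidableEq Wt]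

/-- the word `u` over `W` represents a power of `w` -/
def inz (w : Wt) (u : W Wt) : Prop := Triv (cW c) (u ++ inv (fil w u))

/-- the word `u` over `W` represents an element of `⟨w⟩⟨w'⟩` (`w ≠ w'`) -/
def inzz (w w' : Wt) (u : W Wt) : Prop :=
  Triv (cW c) (inv (fil w u) ++ u ++ inv (fil w' u))

/-- the point `(g, v)` is on a line of the state of the syllable -/
def NearW (g : W Wt) (v : V) : Option (Syl V Wt) → Prop
  | none => False
  | some (.inl (g', v', _, _)) =>
      Triv (cW c) (inv g' ++ g) ∨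
        (v = v' ∧ ∃ w, c (.inl v) (.inr w) ≠ 0 ∧ inz c w (inv g' ++ g))
  | some (.inr (.inl (g', _))) => Triv (cW c) (inv g' ++ g)
  | some (.inr (.inr (g', v', w', _))) => v = v' ∧ inz c w' (inv g' ++ g)

/-- the line `B_g` is in the state -/
def InDB (g : W Wt) : Option (Syl V Wt) → Prop
  | none => False
  | some (.inl (g', _, _, _)) => Triv (cW c) (inv g' ++ g)
  | some (.inr (.inl (g', _))) => Triv (cW c) (inv g' ++ g)
  | some (.inr (.inr _)) => False

/-- the line `(v, w, g⟨w⟩)` is in the state -/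
def InDL (g : W Wt) (v : V) (w : Wt) : Option (Syl V Wt) → Prop
  | none => False
  | some (.inl (g', v', _, _)) => v = v' ∧ inz c w (inv g' ++ g)
  | some (.inr (.inl _)) => False
  | some (.inr (.inr (g', v', w', _))) => v = v' ∧ w = w' ∧ inz c w (inv g' ++ g)

/-- the line `(v, w, g⟨w⟩)` meets the state -/
def MeetL (g : W Wt) (v : V) (w : Wt) : Option (Syl V Wt) → Prop
  | none => False
  | some (.inl (g', v', _, _)) => inz c w (inv g ++ g') ∨
      (v = v' ∧ ∃ w', w' ≠ w ∧ c (.inl v) (.inr w') ≠ 0 ∧ inzz c w w' (inv g ++ g'))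
  | some (.inr (.inl (g', _))) => inz c w (inv g ++ g')
  | some (.inr (.inr (g', v', w', _))) => v = v' ∧ w' ≠ w ∧ inzz c w w' (inv g ++ g')

/-- the word over `W` in a syllable -/
def gOf : Option (Syl V Wt) → W Wt
  | none => []
  | some (.inl (g', _, _, _)) => g'
  | some (.inr (.inl (g', _))) => g'
  | some (.inr (.inr (g', _, _, _))) => g'

/-- admissibility of the syllable `a` after the state of `s` -/
def AdmW (s : Option (Syl V Wt)) : Syl V Wt → Prop
  | .inl (g, v, _, n) => n ≠ 0 ∧ ¬ NearW c g v s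
  | .inr (.inl (g, y)) => ¬ InDB c g s ∧
      (((∀ v, ¬ NearW c g v s) ∧ ∀ v, ¬ Triv (cV c) (y ++ inv (fil v y))) ∨
       (∃ v, NearW c g v s ∧ ¬ Triv (cV c) (y ++ inv (fil v y)) ∧
          ∀ v', v' ≠ v → ¬ Triv (cV c) (inv (fil v y) ++ y ++ inv (fil v' y))))
  | .inr (.inr (g, v, w, y)) => c (.inl v) (.inr w) ≠ 0 ∧ ¬ InDL c g v w s ∧
      ((¬ MeetL c g v w s ∧ cond1 (c (.inl v) (.inr w)) y) ∨
       (MeetL c g v w s ∧ cond2 (c (.inl v) (.inr w)) (expo w (inv g ++ gOf s)) y))

/-- valid codes -/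
def VC : Option (Syl V Wt) → List (Syl V Wt) → Prop
  | _, [] => True
  | s, a :: l => AdmW c s a ∧ VC (some a) l

/-- words over `W` as words over `V ⊔ W` -/
def iW (g : W Wt) : W (V ⊕ Wt) := g.map (fun a => (.inr a.1, a.2))
def iV (y : W V) : W (V ⊕ Wt) := y.map (fun a => (.inl a.1, a.2))

/-- the word of one letter of a line word -/
def letF (k : ℕ) (v : V) (w : Wt) (a : ℕ × Bool) : W (V ⊕ Wt) :=
  List.replicate (a.1 % k) (.inr w, true) ++ [(.inl v, a.2)] ++
    List.replicate (a.1 % k) (.inr w, false)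

/-- the word of a syllable -/
def valS : Syl V Wt → W (V ⊕ Wt)
  | .inl (g, v, b, n) => iW g ++ List.replicate n (.inl v, b) ++ inv (iW g)
  | .inr (.inl (g, y)) => iW g ++ iV y ++ inv (iW g)
  | .inr (.inr (g, v, w, y)) =>
      iW g ++ y.flatMap (letF (c (.inl v) (.inr w)) v w) ++ inv (iW g)

end codes

/-- the even half-labels are symmetric -/
def Symm {S : Type} (c : S → S → ℕ) : Prop := ∀ s t, c s t = c t s

/-- cross labels at least 4 or infinite -/
def Cross {V Wt : Type} (c : V ⊕ Wt → V ⊕ Wt → ℕ) : Prop :=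
  ∀ v w, c (.inl v) (.inr w) ≠ 1

end Pool.Agent.H482R3.EA
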